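import Pool.Agent.H576R3.CF.Comp

set_option autoImplicit false
set_option linter.unusedSectionVars false

/-!
The invariant Euclidean structure (up to scale) of the limits at one point.
-/

namespace Pool.Agent.H576R3.CF

open Pool.Agent.H721R2 Pool.Agent.H779R2.An Filter Topology
open scoped RealInnerProductSpace

variable {X E : Type*} [MetricSpace X] [CompactSpace X] [NormedAddCommGroup E]
  [InnerProductSpace ℝ E] [FiniteDimensional ℝ E] {S : HypSys X E}

theorem An_ne {D : ℕ} (hD : 1 ≤ D) (hfu : ∀ x, Module.finrank ℝ (S.Vu x) = D) (n : ℕ) (x : X) :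
    An S n x ≠ 0 := by
  intro h
  have hpos : 0 < Module.finrank ℝ (S.Vu x) := by rw [hfu]; omega
  have : Nontrivial (S.Vu x) := Module.finrank_pos_iff.mp hpos
  obtain ⟨v, hv⟩ := exists_ne (0 : S.Vu x)
  have h1 : An S n x (v : E) = 0 := by rw [h]; rfl
  rw [An_of_mem S n v.2] at h1
  exact hv (Subtype.ext (Dn_eq_zero S n x v.2 h1))

/-- Limits at `p`, restricted to the unstable space and normalized. -/
def LG (S : HypSys X E) (p : X) : Set (S.Vu p →ₗ[ℝ] S.Vu p) :=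
  {A | |LinearMap.det A| = 1 ∧ ∃ T, Lim S p p T ∧ ∀ v : S.Vu p, (A v : E) = T v}

theorem exists_base_form (L : Lin1 S) {K : ℝ} (hK : QC S K) {D : ℕ} (hD : 1 ≤ D)
    (hfu : ∀ x, Module.finrank ℝ (S.Vu x) = D) (p : X) :
    ∃ B : S.Vu p →ₗ[ℝ] S.Vu p →ₗ[ℝ] ℝ, (∀ v w, B v w = B w v) ∧ (∀ v, v ≠ 0 → 0 < B v v) ∧
      ∀ T, Lim S p p T → ∃ a > 0, ∀ v w v' w' : S.Vu p, (v' : E) = T v → (w' : E) = T w →
        B v' w' = a * B v w := by
  have hK' : (0 : ℝ) < max K 1 := lt_max_of_lt_right one_pos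
  obtain ⟨B, h1, h2, h3⟩ := exists_invariant_form (V := S.Vu p) (LG S p) (by
    rintro A ⟨a1, T, a2, a3⟩ A' ⟨b1, T', b2, b3⟩
    refine ⟨?_, T.comp T', Lim.comp L hK b2 a2, fun v => ?_⟩
    · rw [LinearMap.det_comp, abs_mul, a1, b1, one_mul]
    · show ((A (A' v) : S.Vu p) : E) = T (T' v)
      rw [a3, b3]) (fun A hA => hA.1) (max K 1) (by
    rintro A ⟨a1, T, a2, a3⟩ v
    refine bdd_of_qc A hK' a1 (fun v w => ?_) v
    have h1 := a2.qc hK v w
    rw [pu_of_mem S v.2, pu_of_mem S w.2, ← a3, ← a3] at h1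
    refine h1.trans (mul_le_mul_of_nonneg_right (le_max_left _ _) (by positivity)))
  refine ⟨B, h1, h2, fun T hT => ?_⟩
  let A : S.Vu p →ₗ[ℝ] S.Vu p := LinearMap.restrict (T : E →ₗ[ℝ] E) (fun v _ => hT.mem v)
  have hA : ∀ v : S.Vu p, (A v : E) = T v := fun v => rfl
  have hinj : LinearMap.ker A = ⊥ := by
    rw [LinearMap.ker_eq_bot']
    intro v hv
    have h4 : T v = 0 := by rw [← hA, hv]; rfl
    exact Subtype.ext (hT.inj hK v.2 h4)
  have hdet : LinearMap.det A ≠ 0 := fun h0 => LinearMap.det_eq_zero_iff_ker_ne_bot.mp h0 hinj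
  set d := |LinearMap.det A| with hd
  have hd0 : 0 < d := abs_pos.mpr hdet
  set c : ℝ := d ^ (-(1 / (D : ℝ))) with hc
  have hc0 : 0 < c := Real.rpow_pos_of_pos hd0 _
  have hcD : c ^ D * d = 1 := by
    have hD0 : (D : ℝ) ≠ 0 := by
      have : (1 : ℝ) ≤ D := by exact_mod_cast hD
      linarith
    have e : c ^ D = d⁻¹ := by
      rw [hc, ← Real.rpow_natCast, ← Real.rpow_mul hd0.le]
      rw [show -(1 / (D : ℝ)) * (D : ℝ) = -1 by field_simp, Real.rpow_neg_one]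
    rw [e, inv_mul_cancel₀ hd0.ne']
  have hG : c • A ∈ LG S p := by
    refine ⟨?_, c • T, hT.smul hc0, fun v => rfl⟩
    rw [LinearMap.det_smul, hfu, abs_mul, abs_of_nonneg (pow_nonneg hc0.le _)]
    exact hcD
  refine ⟨(c ^ 2)⁻¹, by positivity, fun v w v' w' hv hw => ?_⟩
  have h4 := h3 _ hG v w
  have ev : v' = A v := Subtype.ext hv
  have ew : w' = A w := Subtype.ext hw
  rw [ev, ew]
  simp only [LinearMap.smul_apply, map_smul, smul_eq_mul] at h4
  rw [← h4]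
  field_simp

end Pool.Agent.H576R3.CF
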