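import Pool.Agent.H576R3.CF.Lim

set_option autoImplicit false
set_option linter.unusedSectionVars false

/-!
The limits of normalized derivatives form a category (and a groupoid when the system is
transitive).
-/

namespace Pool.Agent.H576R3.CF

open Pool.Agent.H721R2 Pool.Agent.H779R2.An Filter Topology
open scoped RealInnerProductSpace

variable {X E : Type*} [MetricSpace X] [CompactSpace X] [NormedAddCommGroup E]
  [InnerProductSpace ℝ E] [FiniteDimensional ℝ E] {S : HypSys X E}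

/-- The derivative itself is a limit. -/
theorem Lim.one (x : X) (h : An S 1 x ≠ 0) : Lim S x (S.g x) (An S 1 x) := by
  refine ⟨h, fun ε hε => ⟨x, 1, 1, ?_, ?_, one_pos, ?_⟩⟩
  · rwa [dist_self]
  · show dist (S.g x) (S.g x) < ε
    rwa [dist_self]
  · rwa [one_smul, sub_self, norm_zero]

/-- Formula for the derivative of the orbit of the bracket. -/
theorem bracket_formula (L : Lin1 S) {x' x'' y' q : X} {n m : ℕ} (hq : S.g^[n] x'' = q)
    (hu : UAsym S x' x'') (hs : SAsym S y' q) {p : E} (hp : p ∈ S.Vu x'') :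
    Dn S (m + n) x'' p =
      L.H (S.g^[m] y') (S.g^[m] q) (Dn S m y' (L.H q y'
        (L.τ (S.g^[n] x') q (Dn S n x' (L.τ x'' x' p))))) := by
  have h1 : L.τ x'' x' p ∈ S.Vu x' := L.τ_mem _ _ hu.symm _ hp
  have h2 := L.τ_iter hu n h1
  rw [L.τ_comp x'' x' x'' hu.symm hu p hp, L.τ_self x'' p hp, hq] at h2
  rw [Dn_add, hq, h2]
  have h3 : Dn S n x'' p ∈ S.Vu q := by
    have := Dn_mem S n x'' hp
    rwa [hq] at this
  have h4 : L.H q y' (Dn S n x'' p) ∈ S.Vu y' := L.H_mem _ _ hs.symm _ h3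
  have h5 := L.H_iter hs m h4
  rw [L.H_comp q y' q hs.symm hs _ h3, L.H_self q _ h3] at h5
  exact h5.symm

set_option maxHeartbeats 4000000 in
theorem Lim.comp (L : Lin1 S) {K : ℝ} (hK : QC S K) {x y w : X} {T U : E →L[ℝ] E}
    (hT : Lim S x y T) (hU : Lim S y w U) : Lim S x w (U.comp T) := by
  refine ⟨?_, fun ε hε => ?_⟩
  · intro h0
    refine hT.ne (ContinuousLinearMap.ext fun v => ?_)
    have h1 : U (T v) = 0 := by
      have := congrArg (fun F : E →L[ℝ] E => F v) h0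
      exact this
    exact hU.inj hK (hT.mem v) h1
  set t := ‖T‖ with ht
  set u := ‖U‖ with hu
  have ht0 : 0 ≤ t := norm_nonneg _
  have hu0 : 0 ≤ u := norm_nonneg _
  set C : ℝ := 2 * ((u + 1) * (12 * t + 12) + t) + u * t + 1 with hC
  have hC0 : 0 < C := by positivity
  set η : ℝ := min 1 (min (ε / 2) (ε / (2 * C))) with hη
  have hη0 : 0 < η := lt_min one_pos (lt_min (by positivity) (by positivity))
  have hη1 : η ≤ 1 := min_le_left _ _
  have hηε : η ≤ ε / 2 := (min_le_right _ _).trans (min_le_left _ _)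
  have hηC : C * η < ε := by
    have : η ≤ ε / (2 * C) := (min_le_right _ _).trans (min_le_right _ _)
    rw [le_div_iff₀ (by positivity)] at this
    linarith
  obtain ⟨ε1, hε1, hτ⟩ := L.τ_near η hη0
  obtain ⟨ε2, hε2, hH⟩ := L.H_near η hη0
  obtain ⟨r3, hr3, hP⟩ := pu_near S η hη0
  set ε' : ℝ := min (min ε1 ε2) (min L.ε₀ (min (r3 / 2) (ε / 4))) with hε'
  have hε'0 : 0 < ε' := lt_min (lt_min hε1 hε2) (lt_min L.geo.pos (lt_min (by positivity)
    (by positivity)))
  have e1 : ε' ≤ ε1 := (min_le_left _ _).trans (min_le_left _ _)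
  have e2 : ε' ≤ ε2 := (min_le_left _ _).trans (min_le_right _ _)
  have e3 : ε' ≤ L.ε₀ := (min_le_right _ _).trans (min_le_left _ _)
  have e4 : ε' ≤ r3 / 2 := (min_le_right _ _).trans ((min_le_right _ _).trans (min_le_left _ _))
  have e5 : ε' ≤ ε / 4 := (min_le_right _ _).trans ((min_le_right _ _).trans (min_le_right _ _))
  obtain ⟨δb, hδb, hbr⟩ := exists_bracket S ε' hε'0
  set ε₁ : ℝ := min η (min (δb / 2) (min (r3 / 2) (ε / 2))) with hε₁
  have hε₁0 : 0 < ε₁ := lt_min hη0 (lt_min (by positivity) (lt_min (by positivity)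
    (by positivity)))
  have f1 : ε₁ ≤ η := min_le_left _ _
  have f2 : ε₁ ≤ δb / 2 := (min_le_right _ _).trans (min_le_left _ _)
  have f3 : ε₁ ≤ r3 / 2 := (min_le_right _ _).trans ((min_le_right _ _).trans (min_le_left _ _))
  have f4 : ε₁ ≤ ε / 2 := (min_le_right _ _).trans ((min_le_right _ _).trans (min_le_right _ _))
  obtain ⟨x', n, c, a1, a2, a3, a4⟩ := hT.ex ε₁ hε₁0
  obtain ⟨y', m, d, b1, b2, b3, b4⟩ := hU.ex ε₁ hε₁0
  obtain ⟨q, hsq, huq⟩ := hbr y' (S.g^[n] x') (by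
    have := dist_triangle y' y (S.g^[n] x')
    rw [dist_comm (S.g^[n] x') y] at a2
    linarith)
  set x'' : X := S.g.symm^[n] q with hx''
  have hgx : S.g^[n] x'' = q := iter_iter_symm S n q
  have hux : S.URel ε' x'' x' := by
    have h1 := huq.iter n
    rwa [iter_symm_iter] at h1
  have hsy : S.SRel ε' (S.g^[m] y') (S.g^[m] q) := hsq.iter m
  have hUas : UAsym S x'' x' := L.geo.uasym _ _ (hux.mono e3)
  have hSas : SAsym S y' q := L.geo.sasym _ _ (hsq.mono e3)
  refine ⟨x'', m + n, d * c, ?_, ?_, mul_pos b3 a3, ?_⟩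
  · have h1 := dist_triangle x'' x' x
    have h2 := hux.dist_le
    linarith
  · have h1 := dist_triangle (S.g^[m] q) (S.g^[m] y') w
    have h2 := hsy.dist_le
    rw [dist_comm] at h2
    rw [Function.iterate_add_apply, hgx]
    linarith
  refine lt_of_le_of_lt (ContinuousLinearMap.opNorm_le_bound _ (by positivity) fun v => ?_) hηC
  set N := ‖v‖ with hN
  have hN0 : 0 ≤ N := norm_nonneg _
  set p0 := pu S x'' v with hp0
  have hp0m : p0 ∈ S.Vu x'' := pu_mem S x'' v
  have hp0N : ‖p0‖ ≤ N := pu_le S x'' v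
  -- first step
  set z0 := L.τ x'' x' p0 with hz0
  have hz0m : z0 ∈ S.Vu x' := L.τ_mem _ _ hUas _ hp0m
  have g1 : ‖z0 - pu S x' v‖ ≤ 2 * η * N := by
    have h1 := hτ x'' x' (hux.mono e1) p0 hp0m
    have h2 : ‖(pu S x'' - pu S x') v‖ ≤ η * N :=
      (ContinuousLinearMap.le_opNorm _ _).trans (mul_le_mul_of_nonneg_right
        (hP x'' x' (by have := hux.dist_le; linarith)) hN0)
    have e : z0 - pu S x' v = (z0 - p0) + (pu S x'' - pu S x') v := by
      rw [sub_apply]
      abel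
    rw [e]
    have h3 := norm_add_le (z0 - p0) ((pu S x'' - pu S x') v)
    have h4 : η * ‖p0‖ ≤ η * N := mul_le_mul_of_nonneg_left hp0N hη0.le
    linarith
  have bndA : ‖c • An S n x'‖ ≤ t + 1 := by
    have h1 := norm_add_le (c • An S n x' - T) T
    rw [sub_add_cancel] at h1
    linarith
  have bndB : ‖d • An S m y'‖ ≤ u + 1 := by
    have h1 := norm_add_le (d • An S m y' - U) U
    rw [sub_add_cancel] at h1
    linarith
  set s1 := c • Dn S n x' z0 with hs1
  have hs1m : s1 ∈ S.Vu (S.g^[n] x') := Submodule.smul_mem _ _ (Dn_mem S n x' hz0m)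
  have g2 : ‖s1 - T v‖ ≤ (2 * t + 3) * η * N := by
    have h1 : s1 - T v = (c • An S n x') (z0 - pu S x' v) + (c • An S n x' - T) v := by
      rw [map_sub, sub_apply, smul_apply,
        smul_apply, An_of_mem S n hz0m, An_of_mem S n (pu_mem S x' v),
        smul_apply, An_apply]
      abel
    rw [h1]
    have h2 := norm_add_le ((c • An S n x') (z0 - pu S x' v)) ((c • An S n x' - T) v)
    have h3 : ‖(c • An S n x') (z0 - pu S x' v)‖ ≤ (t + 1) * (2 * η * N) :=
      (ContinuousLinearMap.le_opNorm _ _).trans (mul_le_mul bndA g1 (norm_nonneg _)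
        (by positivity))
    have h4 : ‖(c • An S n x' - T) v‖ ≤ η * N :=
      (ContinuousLinearMap.le_opNorm _ _).trans (mul_le_mul_of_nonneg_right (by linarith) hN0)
    nlinarith
  have hTv : ‖T v‖ ≤ t * N := ContinuousLinearMap.le_opNorm _ _
  have hηN : η * N ≤ N := by nlinarith
  have htN : 0 ≤ t * N := by positivity
  have hηN0 : 0 ≤ η * N := by positivity
  have htηN : t * (η * N) ≤ t * N := mul_le_mul_of_nonneg_left hηN ht0
  have n1 : ‖s1‖ ≤ (3 * t + 3) * N := by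
    have h1 := norm_add_le (s1 - T v) (T v)
    rw [sub_add_cancel] at h1
    nlinarith
  set s2 := L.τ (S.g^[n] x') q s1 with hs2
  have huq' : S.URel ε' (S.g^[n] x') q := huq.symm
  have hUas2 : UAsym S (S.g^[n] x') q := L.geo.uasym _ _ (huq'.mono e3)
  have hs2m : s2 ∈ S.Vu q := L.τ_mem _ _ hUas2 _ hs1m
  have g3 : ‖s2 - s1‖ ≤ η * ((3 * t + 3) * N) :=
    (hτ _ _ (huq'.mono e1) s1 hs1m).trans (mul_le_mul_of_nonneg_left n1 hη0.le)
  have n2 : ‖s2‖ ≤ (6 * t + 6) * N := by
    have h1 := norm_add_le (s2 - s1) s1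
    rw [sub_add_cancel] at h1
    nlinarith
  set s3 := L.H q y' s2 with hs3
  have hs3m : s3 ∈ S.Vu y' := L.H_mem _ _ hSas.symm _ hs2m
  have g4 : ‖s3 - s2‖ ≤ η * ((6 * t + 6) * N) :=
    (hH _ _ (hsq.symm.mono e2) s2 hs2m).trans (mul_le_mul_of_nonneg_left n2 hη0.le)
  have g5 : ‖s3 - T v‖ ≤ (11 * t + 12) * η * N := by
    have e : s3 - T v = (s3 - s2) + (s2 - s1) + (s1 - T v) := by abel
    rw [e]
    have h1 := norm_add₃_le (a := s3 - s2) (b := s2 - s1) (c := s1 - T v)
    nlinarith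
  have g6 : ‖s3 - pu S y' (T v)‖ ≤ (12 * t + 12) * η * N := by
    have h1 : ‖(pu S y - pu S y') (T v)‖ ≤ η * (t * N) :=
      (ContinuousLinearMap.le_opNorm _ _).trans (mul_le_mul
        (hP y y' (by rw [dist_comm]; linarith)) hTv (norm_nonneg _) hη0.le)
    have e : s3 - pu S y' (T v) = (s3 - T v) + (pu S y - pu S y') (T v) := by
      rw [sub_apply, pu_of_mem S (hT.mem v)]
      abel
    rw [e]
    have h2 := norm_add_le (s3 - T v) ((pu S y - pu S y') (T v))
    nlinarith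
  set s4 := d • Dn S m y' s3 with hs4
  have hs4m : s4 ∈ S.Vu (S.g^[m] y') := Submodule.smul_mem _ _ (Dn_mem S m y' hs3m)
  have g7 : ‖s4 - U (T v)‖ ≤ ((u + 1) * (12 * t + 12) + t) * (η * N) := by
    have h1 : s4 - U (T v) = (d • An S m y') (s3 - pu S y' (T v)) + (d • An S m y' - U) (T v) := by
      rw [map_sub, sub_apply, smul_apply,
        smul_apply, An_of_mem S m hs3m, An_of_mem S m (pu_mem S y' (T v)),
        smul_apply, An_apply]
      abel
    rw [h1]
    have h2 := norm_add_le ((d • An S m y') (s3 - pu S y' (T v))) ((d • An S m y' - U) (T v))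
    have h3 : ‖(d • An S m y') (s3 - pu S y' (T v))‖ ≤ (u + 1) * ((12 * t + 12) * η * N) :=
      (ContinuousLinearMap.le_opNorm _ _).trans (mul_le_mul bndB g6 (norm_nonneg _)
        (by positivity))
    have h4 : ‖(d • An S m y' - U) (T v)‖ ≤ η * (t * N) :=
      (ContinuousLinearMap.le_opNorm _ _).trans (mul_le_mul (by linarith) hTv (norm_nonneg _)
        hη0.le)
    nlinarith
  have hUT : ‖U (T v)‖ ≤ u * (t * N) :=
    (ContinuousLinearMap.le_opNorm _ _).trans (mul_le_mul_of_nonneg_left hTv hu0)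
  have n4 : ‖s4‖ ≤ (((u + 1) * (12 * t + 12) + t) + u * t) * N := by
    have h1 := norm_add_le (s4 - U (T v)) (U (T v))
    rw [sub_add_cancel] at h1
    have h2 : ((u + 1) * (12 * t + 12) + t) * (η * N) ≤ ((u + 1) * (12 * t + 12) + t) * N :=
      mul_le_mul_of_nonneg_left hηN (by positivity)
    nlinarith
  set s5 := L.H (S.g^[m] y') (S.g^[m] q) s4 with hs5
  have g8 : ‖s5 - s4‖ ≤ η * ((((u + 1) * (12 * t + 12) + t) + u * t) * N) :=
    (hH _ _ (hsy.mono e2) s4 hs4m).trans (mul_le_mul_of_nonneg_left n4 hη0.le)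
  have hfin : ((d * c) • An S (m + n) x'') v = s5 := by
    rw [smul_apply, An_apply, ← hp0,
      bracket_formula L (m := m) hgx hUas.symm hSas hp0m, hs5, hs4, hs3, hs2, hs1, hz0]
    simp only [map_smul]
    rw [smul_smul]
  rw [sub_apply, hfin]
  show ‖s5 - U (T v)‖ ≤ C * η * N
  have e : s5 - U (T v) = (s5 - s4) + (s4 - U (T v)) := by abel
  rw [e]
  have h1 := norm_add_le (s5 - s4) (s4 - U (T v))
  have h2 : C * η * N = η * ((((u + 1) * (12 * t + 12) + t) + u * t) * N) +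
      ((u + 1) * (12 * t + 12) + t) * (η * N) + η * N := by
    rw [hC]; ring
  rw [h2]
  linarith

/-- Existence of limits for transitive systems. -/
theorem Lim.exists_of_trans (hne : ∀ n x, An S n x ≠ 0)
    (htr : ∀ U V : Set X, IsOpen U → U.Nonempty → IsOpen V → V.Nonempty →
      ∃ n : ℕ, (S.g^[n] '' U ∩ V).Nonempty) (x y : X) :
    ∃ T, Lim S x y T := by
  have h1 : ∀ j : ℕ, ∃ (x' : X) (n : ℕ), dist x' x < 1 / (j + 1) ∧
      dist (S.g^[n] x') y < 1 / (j + 1) := by
    intro j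
    have hj : (0 : ℝ) < 1 / (j + 1) := by positivity
    obtain ⟨n, _, ⟨x', hx', rfl⟩, hy⟩ := htr (Metric.ball x (1 / (j + 1)))
      (Metric.ball y (1 / (j + 1))) Metric.isOpen_ball ⟨x, Metric.mem_ball_self hj⟩
      Metric.isOpen_ball ⟨y, Metric.mem_ball_self hj⟩
    exact ⟨x', n, hx', hy⟩
  choose x' n h2 h3 using h1
  have h0 := tendsto_one_div_add_atTop_nhds_zero_nat (𝕜 := ℝ)
  have hx : Tendsto x' atTop (𝓝 x) := by
    rw [tendsto_iff_dist_tendsto_zero]
    exact squeeze_zero (fun _ => dist_nonneg) (fun j => (h2 j).le) h0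
  have hy : Tendsto (fun j => S.g^[n j] (x' j)) atTop (𝓝 y) := by
    rw [tendsto_iff_dist_tendsto_zero]
    exact squeeze_zero (fun _ => dist_nonneg) (fun j => (h3 j).le) h0
  let A : ℕ → E →L[ℝ] E := fun j => ‖An S (n j) (x' j)‖⁻¹ • An S (n j) (x' j)
  have hA : ∀ j, A j ∈ Metric.sphere (0 : E →L[ℝ] E) 1 := by
    intro j
    rw [mem_sphere_zero_iff_norm, norm_smul, norm_inv, norm_norm,
      inv_mul_cancel₀ (norm_ne_zero_iff.mpr (hne _ _))]
  have : ProperSpace (E →L[ℝ] E) := FiniteDimensional.proper_real _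
  obtain ⟨T, hT, φ, hφ, hlim⟩ := (isCompact_sphere (0 : E →L[ℝ] E) 1).tendsto_subseq hA
  refine ⟨T, Lim.of_seq ?_ (x' ∘ φ) (n ∘ φ) (fun j => ‖An S (n (φ j)) (x' (φ j))‖⁻¹)
    (hx.comp hφ.tendsto_atTop) (hy.comp hφ.tendsto_atTop)
    (fun j => inv_pos.mpr (norm_pos_iff.mpr (hne _ _))) hlim⟩
  intro h
  rw [h, mem_sphere_zero_iff_norm, norm_zero] at hT
  exact zero_ne_one hT

end Pool.Agent.H576R3.CF
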