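import Mathlib

set_option autoImplicit false

/-!
A bounded semigroup of linear maps of determinant `±1` preserves a Euclidean structure.
-/

namespace Pool.Agent.H576R3.CF

open MeasureTheory Set
open scoped RealInnerProductSpace

variable {V : Type*} [NormedAddCommGroup V] [InnerProductSpace ℝ V] [FiniteDimensional ℝ V]

section meas

variable [MeasurableSpace V] [BorelSpace V]

/-- The moment operator of a set. -/
noncomputable def mom (K : Set V) (v : V) : V := ∫ u in K, ⟪v, u⟫ • u

theorem mom_int {K : Set V} (hK : IsCompact K) (v : V) :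
    IntegrableOn (fun u : V => ⟪v, u⟫ • u) K :=
  ((continuous_const.inner continuous_id).smul continuous_id).continuousOn.integrableOn_compact hK

theorem mom_add {K : Set V} (hK : IsCompact K) (v w : V) : mom K (v + w) = mom K v + mom K w := by
  unfold mom
  rw [← integral_add (mom_int hK v) (mom_int hK w)]
  congr 1
  funext u
  rw [inner_add_left, add_smul]

theorem mom_smul {K : Set V} (c : ℝ) (v : V) : mom K (c • v) = c • mom K v := by
  unfold mom
  rw [← integral_smul]
  congr 1
  funext u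
  rw [real_inner_smul_left, smul_smul]

theorem inner_mom {K : Set V} (hK : IsCompact K) (v w : V) :
    ⟪mom K v, w⟫ = ∫ u in K, ⟪v, u⟫ * ⟪w, u⟫ := by
  unfold mom
  rw [real_inner_comm, ← integral_inner (mom_int hK v)]
  congr 1
  funext u
  rw [real_inner_smul_right]

theorem mom_pos {K : Set V} (hK : IsCompact K) {r : ℝ} (hr : 0 < r)
    (hb : Metric.ball (0 : V) r ⊆ K) {v : V} (hv : v ≠ 0) : 0 < ⟪mom K v, v⟫ := by
  rw [inner_mom hK]
  have hnn : 0 ≤ᵐ[volume.restrict K] fun u : V => ⟪v, u⟫ * ⟪v, u⟫ :=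
    Filter.Eventually.of_forall fun u => mul_self_nonneg _
  have hint : Integrable (fun u : V => ⟪v, u⟫ * ⟪v, u⟫) (volume.restrict K) := by
    have : Continuous fun u : V => ⟪v, u⟫ * ⟪v, u⟫ :=
      (continuous_const.inner continuous_id).mul (continuous_const.inner continuous_id)
    exact this.continuousOn.integrableOn_compact hK
  rw [integral_pos_iff_support_of_nonneg_ae hnn hint]
  have hO : IsOpen (Metric.ball (0 : V) r ∩ {u | ⟪v, u⟫ ≠ 0}) :=
    Metric.isOpen_ball.inter (isOpen_ne_fun (continuous_const.inner continuous_id)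
      continuous_const)
  have hne : (Metric.ball (0 : V) r ∩ {u | ⟪v, u⟫ ≠ 0}).Nonempty := by
    have hv0 : 0 < ‖v‖ := norm_pos_iff.mpr hv
    refine ⟨(r / 2 / ‖v‖) • v, ?_, ?_⟩
    · rw [mem_ball_zero_iff, norm_smul, Real.norm_of_nonneg (by positivity),
        div_mul_cancel₀ _ hv0.ne']
      linarith
    · show ⟪v, (r / 2 / ‖v‖) • v⟫ ≠ 0
      rw [real_inner_smul_right, real_inner_self_eq_norm_sq]
      positivity
  have h1 := hO.measure_pos volume hne
  rw [Measure.restrict_apply' hK.isClosed.measurableSet]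
  refine lt_of_lt_of_le h1 (measure_mono ?_)
  rintro u ⟨h2, h3⟩
  exact ⟨mul_ne_zero h3 h3, hb h2⟩

end meas

theorem det_lower (T : V →ₗ[ℝ] V) {r : ℝ} (hr : 0 < r) (h : ∀ v, r * ‖v‖ ≤ ‖T v‖) :
    r ^ (Module.finrank ℝ V) ≤ |LinearMap.det T| := by
  let _ : MeasurableSpace V := borel V
  have _ : BorelSpace V := ⟨rfl⟩
  have hinj : Function.Injective T := by
    rw [← LinearMap.ker_eq_bot, LinearMap.ker_eq_bot']
    intro v hv
    have := h v
    rw [hv, norm_zero] at this
    exact norm_le_zero_iff.mp (by nlinarith [norm_nonneg v])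
  have hsurj : Function.Surjective T := LinearMap.injective_iff_surjective.mp hinj
  have hsub : Metric.ball (0 : V) r ⊆ T '' Metric.ball (0 : V) 1 := by
    intro u hu
    obtain ⟨v, rfl⟩ := hsurj u
    refine ⟨v, ?_, rfl⟩
    rw [mem_ball_zero_iff] at hu ⊢
    have := h v
    by_contra hc
    push Not at hc
    nlinarith
  have h1 := measure_mono (μ := (volume : Measure V)) hsub
  rw [Measure.addHaar_image_linearMap, Measure.addHaar_ball_of_pos _ _ hr] at h1
  have h2 : (volume : Measure V) (Metric.ball (0 : V) 1) ≠ 0 :=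
    (Metric.measure_ball_pos volume 0 one_pos).ne'
  have h3 : (volume : Measure V) (Metric.ball (0 : V) 1) ≠ ⊤ := measure_ball_lt_top.ne
  have h4 := (ENNReal.mul_le_mul_iff_left h2 h3).mp h1
  exact (ENNReal.ofReal_le_ofReal_iff (abs_nonneg _)).mp h4

theorem bdd_of_qc (T : V →ₗ[ℝ] V) {K : ℝ} (hK : 0 < K) (hdet : |LinearMap.det T| = 1)
    (h : ∀ v w, ‖T v‖ * ‖w‖ ≤ K * (‖T w‖ * ‖v‖)) (v : V) : ‖T v‖ ≤ K * ‖v‖ := by
  rcases eq_or_ne v 0 with rfl | hv
  · simp
  have hv0 : 0 < ‖v‖ := norm_pos_iff.mpr hv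
  rcases eq_or_ne (T v) 0 with h0 | h0
  · rw [h0, norm_zero]; positivity
  have hT0 : 0 < ‖T v‖ := norm_pos_iff.mpr h0
  have hpos : 0 < Module.finrank ℝ V := by
    have : Nontrivial V := ⟨⟨v, 0, hv⟩⟩
    exact Module.finrank_pos
  have h1 := det_lower T (r := ‖T v‖ / (K * ‖v‖)) (by positivity) (fun w => by
    rw [div_mul_eq_mul_div, div_le_iff₀ (by positivity)]
    have := h v w
    nlinarith)
  rw [hdet] at h1
  have h2 : ‖T v‖ / (K * ‖v‖) ≤ 1 := by
    by_contra hc
    push Not at hc
    have := one_lt_pow₀ hc hpos.ne'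
    linarith
  rw [div_le_one (by positivity)] at h2
  exact h2

/-- A bounded semigroup of linear maps of determinant `±1` preserves a Euclidean structure. -/
theorem exists_invariant_form (G : Set (V →ₗ[ℝ] V)) (hcomp : ∀ S ∈ G, ∀ T ∈ G, S ∘ₗ T ∈ G)
    (hdet : ∀ S ∈ G, |LinearMap.det S| = 1) (C : ℝ) (hC : ∀ S ∈ G, ∀ v, ‖S v‖ ≤ C * ‖v‖) :
    ∃ B : V →ₗ[ℝ] V →ₗ[ℝ] ℝ, (∀ v w, B v w = B w v) ∧ (∀ v, v ≠ 0 → 0 < B v v) ∧
      ∀ S ∈ G, ∀ v w, B (S v) (S w) = B v w := by
  let _ : MeasurableSpace V := borel V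
  have _ : BorelSpace V := ⟨rfl⟩
  set C' : ℝ := max C 1 with hC'
  have hC'1 : 1 ≤ C' := le_max_right _ _
  set K : Set V := {v | ‖v‖ ≤ 1 ∧ ∀ S ∈ G, ‖S v‖ ≤ 1} with hKdef
  have hclosed : IsClosed K := by
    have : K = {v | ‖v‖ ≤ 1} ∩ ⋂ S ∈ G, {v | ‖S v‖ ≤ 1} := by
      ext v; simp [hKdef]
    rw [this]
    refine (isClosed_le continuous_norm continuous_const).inter ?_
    refine isClosed_biInter fun S _ => ?_
    exact isClosed_le (LinearMap.continuous_of_finiteDimensional S).norm continuous_const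
  have hKc : IsCompact K := by
    have : ProperSpace V := FiniteDimensional.proper_real V
    refine (isCompact_closedBall (0 : V) 1).of_isClosed_subset hclosed ?_
    intro v hv
    rw [mem_closedBall_zero_iff]
    exact hv.1
  have hball : Metric.ball (0 : V) (1 / C') ⊆ K := by
    intro v hv
    rw [mem_ball_zero_iff, lt_div_iff₀ (by positivity)] at hv
    refine ⟨by nlinarith [norm_nonneg v], fun S hS => (hC S hS v).trans ?_⟩
    have : C * ‖v‖ ≤ C' * ‖v‖ := mul_le_mul_of_nonneg_right (le_max_left _ _) (norm_nonneg _)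
    nlinarith
  have hr : 0 < 1 / C' := by positivity
  let M : V →ₗ[ℝ] V :=
    { toFun := mom K
      map_add' := mom_add hKc
      map_smul' := mom_smul }
  have hMpos : ∀ v, v ≠ 0 → 0 < ⟪M v, v⟫ := fun v hv => mom_pos hKc hr hball hv
  have hMsym : ∀ v w, ⟪M v, w⟫ = ⟪v, M w⟫ := by
    intro v w
    rw [real_inner_comm (M w) v]
    show ⟪mom K v, w⟫ = ⟪mom K w, v⟫
    rw [inner_mom hKc, inner_mom hKc]
    congr 1
    funext u
    ring
  have hMinj : Function.Injective M := by
    rw [← LinearMap.ker_eq_bot, LinearMap.ker_eq_bot']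
    intro v hv
    by_contra hne
    have := hMpos v hne
    rw [hv, inner_zero_left] at this
    exact lt_irrefl _ this
  let Me : V ≃ₗ[ℝ] V := LinearEquiv.ofInjectiveEndo M hMinj
  have hMe : ∀ v, Me v = M v := fun v => rfl
  have hMe' : ∀ v, M (Me.symm v) = v := fun v => by rw [← hMe, Me.apply_symm_apply]
  have hdet0 : ∀ S ∈ G, LinearMap.det S ≠ 0 := fun S hS h0 => by
    have := hdet S hS
    rw [h0, abs_zero] at this
    exact zero_ne_one this
  have hSinj : ∀ S ∈ G, Function.Injective S := fun S hS => by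
    rw [← LinearMap.ker_eq_bot]
    by_contra hc
    exact hdet0 S hS (LinearMap.det_eq_zero_iff_ker_ne_bot.mpr hc)
  have hSK : ∀ S ∈ G, S '' K ⊆ K := by
    rintro S hS _ ⟨v, hv, rfl⟩
    refine ⟨hv.2 S hS, fun T hT => ?_⟩
    exact hv.2 (T ∘ₗ S) (hcomp T hT S hS)
  have hKm : MeasurableSet K := hclosed.measurableSet
  have hae : ∀ S ∈ G, (S '' K : Set V) =ᵐ[volume] K := by
    intro S hS
    have h1 : volume (S '' K) = volume K := by
      rw [Measure.addHaar_image_linearMap, hdet S hS, ENNReal.ofReal_one, one_mul]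
    have h2 : IsCompact (S '' K) := hKc.image (LinearMap.continuous_of_finiteDimensional S)
    exact ae_eq_of_subset_of_measure_ge (hSK S hS) h1.ge h2.measurableSet.nullMeasurableSet
      hKc.measure_lt_top.ne
  have hkey : ∀ S ∈ G, ∀ v, S (M (LinearMap.adjoint S v)) = M v := by
    intro S hS v
    show S (mom K (LinearMap.adjoint S v)) = mom K v
    unfold mom
    have e1 : S (∫ u in K, ⟪LinearMap.adjoint S v, u⟫ • u) =
        ∫ u in K, ⟪v, S u⟫ • S u := by
      have := ((LinearMap.toContinuousLinearMap S).integral_comp_comm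
        (mom_int hKc (LinearMap.adjoint S v))).symm
      rw [LinearMap.coe_toContinuousLinearMap'] at this
      rw [this]
      congr 1
      funext u
      rw [map_smul, LinearMap.adjoint_inner_left]
    rw [e1]
    have e2 := integral_image_eq_integral_abs_det_fderiv_smul (volume : Measure V) hKm
      (f := S) (f' := fun _ => LinearMap.toContinuousLinearMap S)
      (fun x _ => (LinearMap.toContinuousLinearMap S).hasFDerivWithinAt) (hSinj S hS).injOn
      (fun u => ⟪v, u⟫ • u)
    rw [setIntegral_congr_set (hae S hS)] at e2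
    rw [e2]
    congr 1
    funext u
    have e3 : |(LinearMap.toContinuousLinearMap S).det| = 1 := hdet S hS
    rw [e3, one_smul]
  have hadj : ∀ S ∈ G, Function.Surjective (LinearMap.adjoint S) := by
    intro S hS
    rw [← LinearMap.injective_iff_surjective]
    intro v w hvw
    have h1 : ∀ u, ⟪v - w, S u⟫ = 0 := by
      intro u
      rw [← LinearMap.adjoint_inner_left, map_sub, hvw, sub_self, inner_zero_left]
    obtain ⟨u, hu⟩ := (LinearMap.injective_iff_surjective.mp (hSinj S hS)) (v - w)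
    have h2 := h1 u
    rw [hu, inner_self_eq_zero] at h2
    exact sub_eq_zero.mp h2
  refine ⟨LinearMap.mk₂ ℝ (fun v w => ⟪Me.symm v, w⟫) (fun v v' w => by
    rw [map_add, inner_add_left]) (fun c v w => by rw [map_smul, real_inner_smul_left]; rfl)
    (fun v w w' => inner_add_right _ _ _) (fun c v w => by rw [real_inner_smul_right]; rfl),
    ?_, ?_, ?_⟩
  · intro v w
    show ⟪Me.symm v, w⟫ = ⟪Me.symm w, v⟫
    calc ⟪Me.symm v, w⟫ = ⟪Me.symm v, M (Me.symm w)⟫ := by rw [hMe']
      _ = ⟪M (Me.symm v), Me.symm w⟫ := (hMsym _ _).symm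
      _ = ⟪v, Me.symm w⟫ := by rw [hMe']
      _ = ⟪Me.symm w, v⟫ := real_inner_comm _ _
  · intro v hv
    show 0 < ⟪Me.symm v, v⟫
    have h1 : Me.symm v ≠ 0 := by
      intro h0
      exact hv (by rw [← hMe' v, h0, map_zero])
    have h2 := hMpos _ h1
    rw [hMe', real_inner_comm] at h2
    exact h2
  · intro S hS v w
    show ⟪Me.symm (S v), S w⟫ = ⟪Me.symm v, w⟫
    obtain ⟨a, ha⟩ := hadj S hS (Me.symm v)
    have h1 : v = M (LinearMap.adjoint S a) := by rw [ha, hMe']
    have h2 : S v = M a := by rw [h1, hkey S hS]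
    have h3 : Me.symm (S v) = a := by rw [h2, ← hMe, Me.symm_apply_apply]
    rw [h3, ← ha, LinearMap.adjoint_inner_left]

end Pool.Agent.H576R3.CF
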