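import Pool.Agent.H576R3.CF.Form
import Pool.Agent.H779R2.An.Basic

set_option autoImplicit false
set_option linter.unusedSectionVars false

/-!
Limits of normalized derivatives along orbit segments, on the unstable bundle of a hyperbolic
system.
-/

namespace Pool.Agent.H576R3.CF

open Pool.Agent.H721R2 Pool.Agent.H779R2.An Filter Topology
open scoped RealInnerProductSpace

variable {X E : Type*} [MetricSpace X] [CompactSpace X] [NormedAddCommGroup E]
  [InnerProductSpace ℝ E] [FiniteDimensional ℝ E]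

/-- Orthogonal projection onto the unstable space. -/
noncomputable def pu (S : HypSys X E) (x : X) : E →L[ℝ] E := (S.Vu x).starProjection

theorem pu_mem (S : HypSys X E) (x : X) (v : E) : pu S x v ∈ S.Vu x :=
  Submodule.starProjection_apply_mem _ _

theorem pu_of_mem (S : HypSys X E) {x : X} {v : E} (hv : v ∈ S.Vu x) : pu S x v = v :=
  Submodule.starProjection_eq_self_iff.mpr hv

theorem pu_le (S : HypSys X E) (x : X) (v : E) : ‖pu S x v‖ ≤ ‖v‖ :=
  Submodule.norm_starProjection_apply_le _ _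

theorem pu_inner (S : HypSys X E) (x : X) (v w : E) : ⟪pu S x v, w⟫ = ⟪v, pu S x w⟫ :=
  Submodule.inner_starProjection_left_eq_right _ _ _

theorem pu_pu (S : HypSys X E) (x : X) (v : E) : pu S x (pu S x v) = pu S x v :=
  pu_of_mem S (pu_mem S x v)

theorem pu_dist (S : HypSys X E) (x : X) (v w : E) (hw : w ∈ S.Vu x) :
    ‖v - pu S x v‖ ≤ ‖v - w‖ := by
  have h1 : ⟪v - pu S x v, pu S x v - w⟫ = 0 := by
    have h2 : pu S x v - w ∈ S.Vu x := Submodule.sub_mem _ (pu_mem S x v) hw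
    calc ⟪v - pu S x v, pu S x v - w⟫ = ⟪v - pu S x v, pu S x (pu S x v - w)⟫ := by
          rw [pu_of_mem S h2]
      _ = ⟪pu S x (v - pu S x v), pu S x v - w⟫ := (pu_inner S x _ _).symm
      _ = 0 := by rw [map_sub, pu_pu, sub_self, inner_zero_left]
  have h3 : ‖v - w‖ ^ 2 = ‖v - pu S x v‖ ^ 2 + ‖pu S x v - w‖ ^ 2 := by
    have : v - w = (v - pu S x v) + (pu S x v - w) := by abel
    rw [this, norm_add_sq_real, h1]
    ring
  nlinarith [norm_nonneg (v - w), norm_nonneg (v - pu S x v), sq_nonneg ‖pu S x v - w‖]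

theorem pu_near (S : HypSys X E) (η : ℝ) (hη : 0 < η) :
    ∃ r > 0, ∀ x y : X, dist x y < r → ‖pu S x - pu S y‖ ≤ η := by
  obtain ⟨r, hr, h⟩ := S.A3' (η / 2) (by positivity)
  have key : ∀ x y : X, dist x y < r → ∀ u ∈ S.Vu x, ‖u - pu S y u‖ ≤ η / 2 * ‖u‖ := by
    intro x y hxy u hu
    obtain ⟨u', hu', h1⟩ := h x y hxy u hu
    exact (pu_dist S y u u' hu').trans h1
  refine ⟨r, hr, fun x y hxy => ?_⟩
  refine ContinuousLinearMap.opNorm_le_bound _ hη.le fun v => ?_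
  have h1 := key x y hxy _ (pu_mem S x v)
  set z := v - pu S x v with hz
  have hzv : ‖z‖ ≤ ‖v‖ := by
    have := pu_dist S x v 0 (Submodule.zero_mem _)
    rwa [sub_zero] at this
  have hpz : pu S x z = 0 := by rw [hz, map_sub, pu_pu, sub_self]
  have h2 : ‖pu S y z‖ ≤ η / 2 * ‖z‖ := by
    have h3 := key y x (by rwa [dist_comm]) _ (pu_mem S y z)
    have h4 : ‖pu S y z‖ ^ 2 ≤ η / 2 * ‖pu S y z‖ * ‖z‖ := by
      calc ‖pu S y z‖ ^ 2 = ⟪pu S y z, pu S y z⟫ := (real_inner_self_eq_norm_sq _).symm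
        _ = ⟪pu S y z, z⟫ := by rw [← pu_inner, pu_pu]
        _ = ⟪pu S y z - pu S x (pu S y z), z⟫ := by
            rw [inner_sub_left, pu_inner S x (pu S y z) z, hpz, inner_zero_right, sub_zero]
        _ ≤ ‖pu S y z - pu S x (pu S y z)‖ * ‖z‖ := real_inner_le_norm _ _
        _ ≤ _ := mul_le_mul_of_nonneg_right h3 (norm_nonneg _)
    rcases eq_or_lt_of_le (norm_nonneg (pu S y z)) with h0 | h0
    · rw [← h0]; positivity
    · have h5 : ‖pu S y z‖ * ‖pu S y z‖ ≤ ‖pu S y z‖ * (η / 2 * ‖z‖) := by nlinarith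
      exact le_of_mul_le_mul_left h5 h0
  have e1 : (pu S x - pu S y) v = (pu S x v - pu S y (pu S x v)) - pu S y z := by
    rw [sub_apply, hz, map_sub]
    abel
  rw [e1]
  have h6 := norm_sub_le (pu S x v - pu S y (pu S x v)) (pu S y z)
  have h7 := pu_le S x v
  nlinarith [norm_nonneg v]

theorem pu_cont (S : HypSys X E) : Continuous (pu S) := by
  rw [Metric.continuous_iff]
  intro x ε hε
  obtain ⟨r, hr, h⟩ := pu_near S (ε / 2) (by positivity)
  refine ⟨r, hr, fun y hy => ?_⟩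
  rw [dist_eq_norm]
  have := h y x hy
  linarith

theorem tendsto_clm_apply {F : ℕ → E →L[ℝ] E} {g : ℕ → E} {T : E →L[ℝ] E} {v : E}
    (h : Tendsto F atTop (𝓝 T)) (h' : Tendsto g atTop (𝓝 v)) :
    Tendsto (fun j => F j (g j)) atTop (𝓝 (T v)) :=
  ((isBoundedBilinearMap_apply (𝕜 := ℝ) (E := E) (F := E)).continuous.tendsto (T, v)).comp
    (h.prodMk_nhds h')

/-- `Dⁿ` at `x`, precomposed with the projection onto the unstable space. -/
noncomputable def An (S : HypSys X E) (n : ℕ) (x : X) : E →L[ℝ] E :=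
  (LinearMap.toContinuousLinearMap (Dn S n x)).comp (pu S x)

theorem An_apply (S : HypSys X E) (n : ℕ) (x : X) (v : E) : An S n x v = Dn S n x (pu S x v) := rfl

theorem An_mem (S : HypSys X E) (n : ℕ) (x : X) (v : E) : An S n x v ∈ S.Vu (S.g^[n] x) :=
  Dn_mem S n x (pu_mem S x v)

theorem An_of_mem (S : HypSys X E) (n : ℕ) {x : X} {v : E} (hv : v ∈ S.Vu x) :
    An S n x v = Dn S n x v := by rw [An_apply, pu_of_mem S hv]

/-- `T` is a limit of positive multiples of the derivatives along orbit segments from points close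
to `x` to points close to `y`. -/
structure Lim (S : HypSys X E) (x y : X) (T : E →L[ℝ] E) : Prop where
  ne : T ≠ 0
  ex : ∀ ε > 0, ∃ (x' : X) (n : ℕ) (c : ℝ), dist x' x < ε ∧ dist (S.g^[n] x') y < ε ∧ 0 < c ∧
    ‖c • An S n x' - T‖ < ε

variable {S : HypSys X E}

theorem Lim.seq {x y : X} {T : E →L[ℝ] E} (h : Lim S x y T) :
    ∃ (x' : ℕ → X) (n : ℕ → ℕ) (c : ℕ → ℝ), Tendsto x' atTop (𝓝 x) ∧
      Tendsto (fun j => S.g^[n j] (x' j)) atTop (𝓝 y) ∧ (∀ j, 0 < c j) ∧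
      Tendsto (fun j => c j • An S (n j) (x' j)) atTop (𝓝 T) := by
  have h1 : ∀ j : ℕ, (0 : ℝ) < 1 / (j + 1) := fun j => by positivity
  choose x' n c h2 h3 h4 h5 using fun j : ℕ => h.ex (1 / (j + 1)) (h1 j)
  have h0 := tendsto_one_div_add_atTop_nhds_zero_nat (𝕜 := ℝ)
  refine ⟨x', n, c, ?_, ?_, h4, ?_⟩
  · rw [tendsto_iff_dist_tendsto_zero]
    exact squeeze_zero (fun _ => dist_nonneg) (fun j => (h2 j).le) h0
  · rw [tendsto_iff_dist_tendsto_zero]
    exact squeeze_zero (fun _ => dist_nonneg) (fun j => (h3 j).le) h0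
  · rw [tendsto_iff_norm_sub_tendsto_zero]
    exact squeeze_zero (fun _ => norm_nonneg _) (fun j => (h5 j).le) h0

theorem Lim.of_seq {x y : X} {T : E →L[ℝ] E} (hT : T ≠ 0) (x' : ℕ → X) (n : ℕ → ℕ) (c : ℕ → ℝ)
    (h1 : Tendsto x' atTop (𝓝 x)) (h2 : Tendsto (fun j => S.g^[n j] (x' j)) atTop (𝓝 y))
    (h3 : ∀ j, 0 < c j) (h4 : Tendsto (fun j => c j • An S (n j) (x' j)) atTop (𝓝 T)) :
    Lim S x y T := by
  refine ⟨hT, fun ε hε => ?_⟩
  have a1 := (Metric.tendsto_nhds.mp h1) ε hε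
  have a2 := (Metric.tendsto_nhds.mp h2) ε hε
  have a3 := (Metric.tendsto_nhds.mp h4) ε hε
  obtain ⟨j, ⟨b1, b2⟩, b3⟩ := ((a1.and a2).and a3).exists
  exact ⟨x' j, n j, c j, b1, b2, h3 j, by rwa [dist_eq_norm] at b3⟩

theorem Lim.closed {x y : X} {T : E →L[ℝ] E} (hT : T ≠ 0) (xs ys : ℕ → X)
    (Ts : ℕ → E →L[ℝ] E) (h : ∀ j, Lim S (xs j) (ys j) (Ts j)) (h1 : Tendsto xs atTop (𝓝 x))
    (h2 : Tendsto ys atTop (𝓝 y)) (h3 : Tendsto Ts atTop (𝓝 T)) : Lim S x y T := by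
  refine ⟨hT, fun ε hε => ?_⟩
  have a1 := (Metric.tendsto_nhds.mp h1) (ε / 2) (by positivity)
  have a2 := (Metric.tendsto_nhds.mp h2) (ε / 2) (by positivity)
  have a3 := (Metric.tendsto_nhds.mp h3) (ε / 2) (by positivity)
  obtain ⟨j, ⟨b1, b2⟩, b3⟩ := ((a1.and a2).and a3).exists
  obtain ⟨x', n, c, c1, c2, c3, c4⟩ := (h j).ex (ε / 2) (by positivity)
  refine ⟨x', n, c, ?_, ?_, c3, ?_⟩
  · have := dist_triangle x' (xs j) x
    linarith
  · have := dist_triangle (S.g^[n] x') (ys j) y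
    linarith
  · rw [dist_eq_norm] at b3
    have := norm_add_le (c • An S n x' - Ts j) (Ts j - T)
    rw [sub_add_sub_cancel] at this
    linarith

theorem Lim.smul {x y : X} {T : E →L[ℝ] E} (h : Lim S x y T) {a : ℝ} (ha : 0 < a) :
    Lim S x y (a • T) := by
  obtain ⟨x', n, c, h1, h2, h3, h4⟩ := h.seq
  refine Lim.of_seq (smul_ne_zero ha.ne' h.ne) x' n (fun j => a * c j) h1 h2
    (fun j => mul_pos ha (h3 j)) ?_
  have := h4.const_smul a
  refine this.congr fun j => ?_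
  rw [smul_smul]

theorem Lim.comp_pu {x y : X} {T : E →L[ℝ] E} (h : Lim S x y T) (v : E) :
    T (pu S x v) = T v := by
  obtain ⟨x', n, c, h1, h2, h3, h4⟩ := h.seq
  have h5 : Tendsto (fun j => pu S (x' j) v) atTop (𝓝 (pu S x v)) :=
    (((ContinuousLinearMap.apply ℝ E v).continuous.comp (pu_cont S)).tendsto x).comp h1
  have h6 : Tendsto (fun j => (c j • An S (n j) (x' j)) (pu S (x' j) v)) atTop
      (𝓝 (T (pu S x v))) := tendsto_clm_apply h4 h5
  have h7 : Tendsto (fun j => (c j • An S (n j) (x' j)) v) atTop (𝓝 (T v)) :=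
    tendsto_clm_apply h4 tendsto_const_nhds
  refine tendsto_nhds_unique h6 (h7.congr fun j => ?_)
  show c j • Dn S (n j) (x' j) (pu S (x' j) v) = c j • Dn S (n j) (x' j) (pu S (x' j) (pu S (x' j) v))
  rw [pu_pu]

theorem Lim.mem {x y : X} {T : E →L[ℝ] E} (h : Lim S x y T) (v : E) : T v ∈ S.Vu y := by
  obtain ⟨x', n, c, h1, h2, h3, h4⟩ := h.seq
  have h5 : Tendsto (fun j => pu S (S.g^[n j] (x' j))) atTop (𝓝 (pu S y)) :=
    ((pu_cont S).tendsto y).comp h2
  have h7 : Tendsto (fun j => (c j • An S (n j) (x' j)) v) atTop (𝓝 (T v)) :=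
    tendsto_clm_apply h4 tendsto_const_nhds
  have h8 := tendsto_clm_apply h5 h7
  have h9 : pu S y (T v) = T v := by
    refine tendsto_nhds_unique h8 (h7.congr fun j => ?_)
    rw [pu_of_mem]
    exact Submodule.smul_mem _ _ (An_mem S _ _ _)
  rw [← h9]
  exact pu_mem S y _

theorem Lim.qc {K : ℝ} (hK : QC S K) {x y : X} {T : E →L[ℝ] E} (h : Lim S x y T) (v w : E) :
    ‖T v‖ * ‖pu S x w‖ ≤ K * (‖T w‖ * ‖pu S x v‖) := by
  obtain ⟨x', n, c, h1, h2, h3, h4⟩ := h.seq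
  have hp : ∀ v, Tendsto (fun j => ‖pu S (x' j) v‖) atTop (𝓝 ‖pu S x v‖) := fun v =>
    ((((ContinuousLinearMap.apply ℝ E v).continuous.comp (pu_cont S)).tendsto x).comp h1).norm
  have hT : ∀ v, Tendsto (fun j => ‖(c j • An S (n j) (x' j)) v‖) atTop (𝓝 ‖T v‖) := fun v =>
    (tendsto_clm_apply h4 tendsto_const_nhds).norm
  refine le_of_tendsto_of_tendsto' ((hT v).mul (hp w)) (((hT w).mul (hp v)).const_mul K)
    fun j => ?_
  have h5 := hK (n j) (x' j) _ (pu_mem S (x' j) v) _ (pu_mem S (x' j) w)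
  have h6 : ∀ v, ‖(c j • An S (n j) (x' j)) v‖ = c j * ‖Dn S (n j) (x' j) (pu S (x' j) v)‖ := by
    intro v
    rw [smul_apply, norm_smul, Real.norm_of_nonneg (h3 j).le]
    rfl
  rw [h6, h6]
  nlinarith [mul_le_mul_of_nonneg_left h5 (h3 j).le]

theorem Lim.inj {K : ℝ} (hK : QC S K) {x y : X} {T : E →L[ℝ] E} (h : Lim S x y T) {v : E}
    (hv : v ∈ S.Vu x) (h0 : T v = 0) : v = 0 := by
  obtain ⟨u, hu⟩ : ∃ u, T u ≠ 0 := by
    by_contra hc
    push Not at hc
    exact h.ne (ContinuousLinearMap.ext hc)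
  have h1 := h.qc hK u v
  rw [h0, norm_zero, zero_mul, mul_zero, pu_of_mem S hv] at h1
  have h2 : 0 < ‖T u‖ := norm_pos_iff.mpr hu
  have h3 : ‖v‖ ≤ 0 := by nlinarith [norm_nonneg v]
  exact norm_le_zero_iff.mp h3

end Pool.Agent.H576R3.CF
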