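import Pool.Agent.H779R2.An.TransNT

set_option autoImplicit false
set_option linter.unusedSectionVars false

/-!
Nonwandering homeomorphisms: powers, and transitivity of hyperbolic systems.
-/

namespace Pool.Agent.H576R3.CF

open Pool.Agent.H721R2 Pool.Agent.H779R2.An Filter Topology

/-- If all points are nonwandering for `f` then so they are for the powers of `f`. -/
theorem nw_pow {Y : Type*} [TopologicalSpace Y] (f : Y → Y) (hf : Continuous f)
    (h : ∀ U : Set Y, IsOpen U → U.Nonempty → ∃ m : ℕ, 1 ≤ m ∧ (f^[m] '' U ∩ U).Nonempty)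
    (n : ℕ) (hn : 1 ≤ n) (U : Set Y) (hU : IsOpen U) (hne : U.Nonempty) :
    ∃ k : ℕ, 1 ≤ k ∧ (f^[n * k] '' U ∩ U).Nonempty := by
  have h1 : ∀ O : {O : Set Y // IsOpen O ∧ O.Nonempty}, ∃ m : ℕ, 1 ≤ m ∧
      (O.1 ∩ f^[m] ⁻¹' O.1).Nonempty := by
    rintro ⟨O, hO, hOn⟩
    obtain ⟨m, hm, _, ⟨x, hx, rfl⟩, hx'⟩ := h O hO hOn
    exact ⟨m, hm, x, hx, hx'⟩
  choose m hm1 hm2 using h1
  let nxt : {O : Set Y // IsOpen O ∧ O.Nonempty} → {O : Set Y // IsOpen O ∧ O.Nonempty} :=
    fun O => ⟨O.1 ∩ f^[m O] ⁻¹' O.1, O.2.1.inter (O.2.1.preimage (hf.iterate _)), hm2 O⟩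
  let sq : ℕ → {O : Set Y // IsOpen O ∧ O.Nonempty} := fun j => nxt^[j] ⟨U, hU, hne⟩
  have hsq : ∀ j, sq (j + 1) = nxt (sq j) := fun j => Function.iterate_succ_apply' _ _ _
  have hsub : ∀ j i, (sq (i + j)).1 ⊆ (sq i).1 := by
    intro j
    induction j with
    | zero => intro i; exact subset_rfl
    | succ j ih =>
      intro i
      rw [← add_assoc, hsq]
      exact Set.inter_subset_left.trans (ih i)
  let s : ℕ → ℕ := fun j => ∑ i ∈ Finset.range j, m (sq i)
  have hs : ∀ j, s (j + 1) = s j + m (sq j) := fun j => Finset.sum_range_succ _ _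
  have key : ∀ i j, ∀ x ∈ (sq (i + j)).1, ∃ t, s (i + j) = s i + t ∧ f^[t] x ∈ (sq i).1 := by
    intro i j
    induction j with
    | zero => intro x hx; exact ⟨0, rfl, hx⟩
    | succ j ih =>
      intro x hx
      rw [← add_assoc, hsq] at hx
      obtain ⟨t, ht, hx'⟩ := ih _ hx.2
      refine ⟨t + m (sq (i + j)), ?_, ?_⟩
      · rw [← add_assoc, hs, ht]; ring
      · rw [Function.iterate_add_apply]; exact hx'
  have hmono : ∀ i j, i + j ≤ s (i + j) + i ∧ s i + j ≤ s (i + j) := by
    intro i j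
    induction j with
    | zero => exact ⟨by omega, le_rfl⟩
    | succ j ih =>
      rw [← add_assoc, hs]
      have := hm1 (sq (i + j))
      omega
  obtain ⟨a, b, hab, hmod⟩ := Fintype.exists_ne_map_eq_of_card_lt
    (fun j : Fin (n + 1) => (⟨s j % n, Nat.mod_lt _ hn⟩ : Fin n)) (by simp)
  have hmod' : s a % n = s b % n := congrArg Fin.val hmod
  have main : ∀ i j : ℕ, i < j → s i % n = s j % n →
      ∃ k : ℕ, 1 ≤ k ∧ (f^[n * k] '' U ∩ U).Nonempty := by
    intro i j hij hm'
    obtain ⟨d, rfl⟩ := Nat.exists_eq_add_of_lt hij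
    obtain ⟨x, hx⟩ := (sq (i + (d + 1))).2.2
    obtain ⟨t, ht, hx'⟩ := key i (d + 1) x hx
    have hpos := (hmono i (d + 1)).2
    have e : s (i + d + 1) = s i + t := ht
    rw [e] at hm'
    have hdvd : n ∣ t := by
      have : (s i + t) ≡ s i [MOD n] := hm'.symm
      have h2 : t ≡ 0 [MOD n] := by
        have := Nat.ModEq.add_left_cancel' (s i) (show s i + t ≡ s i + 0 [MOD n] by simpa using this)
        exact this
      exact (Nat.modEq_zero_iff_dvd).mp h2
    obtain ⟨k, rfl⟩ := hdvd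
    have hxU : x ∈ U := by
      have := hsub (i + (d + 1)) 0
      rw [Nat.zero_add] at this
      exact this hx
    have hx'U : f^[n * k] x ∈ U := by
      have := hsub i 0
      rw [Nat.zero_add] at this
      exact this hx'
    refine ⟨k, ?_, _, ⟨x, hxU, rfl⟩, hx'U⟩
    rcases Nat.eq_zero_or_pos k with hk | hk
    · subst hk
      omega
    · exact hk
  have hne' : (a : ℕ) ≠ b := fun h => hab (Fin.ext h)
  rcases lt_or_gt_of_ne hne' with hlt | hlt
  · exact main a b hlt hmod'
  · exact main b a hlt hmod'.symm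

variable {X E : Type*} [MetricSpace X] [CompactSpace X] [NormedAddCommGroup E]
  [InnerProductSpace ℝ E] [FiniteDimensional ℝ E]

/-- Nonwandering hyperbolic systems on connected spaces are transitive. -/
theorem trans_of_nw [PreconnectedSpace X] (S : HypSys X E)
    (h : ∀ U : Set X, IsOpen U → U.Nonempty → ∃ m : ℕ, 1 ≤ m ∧ (S.g^[m] '' U ∩ U).Nonempty)
    (U V : Set X) (hU : IsOpen U) (hUn : U.Nonempty) (hV : IsOpen V) (hVn : V.Nonempty) :
    ∃ n : ℕ, (S.g^[n] '' U ∩ V).Nonempty := by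
  refine transitive_of_no_trap S (fun W hW hne htrap => ?_) U V hU hUn hV hVn
  have hc : IsClosed (S.g '' closure W) := (isClosed_closure.isCompact.image S.g.continuous).isClosed
  rcases Set.eq_empty_or_nonempty (W \ (S.g '' closure W)) with h0 | h0
  · have h1 : W = S.g '' closure W := by
      refine Set.Subset.antisymm (Set.sdiff_eq_empty.mp h0) ?_
      rintro _ ⟨y, hy, rfl⟩
      exact htrap y hy
    have h2 : IsClosed W := by rw [h1]; exact hc
    exact IsClopen.eq_univ ⟨h2, hW⟩ hne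
  · exfalso
    obtain ⟨m, hm, _, ⟨x, hx, rfl⟩, hx'⟩ := h _ (hW.sdiff hc) h0
    have h1 : ∀ j, S.g^[j] x ∈ W := by
      intro j
      induction j with
      | zero => exact hx.1
      | succ j ih =>
        rw [Function.iterate_succ_apply']
        exact htrap _ (subset_closure ih)
    obtain ⟨j, rfl⟩ := Nat.exists_eq_add_of_le hm
    refine hx'.2 ⟨S.g^[j] x, subset_closure (h1 j), ?_⟩
    rw [add_comm, Function.iterate_succ_apply']

end Pool.Agent.H576R3.CF
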