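import Pool.Agent.H576R3.CF.Str
import Pool.Agent.H576R3.CF.NW
import Pool.Agent.H147R2.RI.Main2
import Pool.Agent.H779R2.An.MainL

set_option autoImplicit false
set_option linter.unusedSectionVars false

open scoped Manifold ContDiff Topology Bundle
open Set Filter Bundle

namespace Pool.Agent.H576R3.CF

open Pool.Agent.H721R2 Pool.Agent.H789R2.AN Pool.Agent.H789R2.GP Pool.Agent.H779R2.An
  Pool.Agent.H779R2.To Pool.Agent.H779R2.Nu Pool.Agent.H147R2.RI

section abs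

variable {X E : Type*} [MetricSpace X] [CompactSpace X] [NormedAddCommGroup E]
  [InnerProductSpace ℝ E] [FiniteDimensional ℝ E]

/-- Existence of the conformal structure of a nonwandering quasiconformal system. -/
theorem abstract_cs0 [ConnectedSpace X] (S : HypSys X E) {Q r : ℝ}
    (hQ : Quad S Q r) {K : ℝ} (hK : QC S K) (D : ℕ) (hD : 2 ≤ D)
    (hfu : ∀ x, Module.finrank ℝ (S.Vu x) = D)
    (htr : ∀ U V : Set X, IsOpen U → U.Nonempty → IsOpen V → V.Nonempty →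
      ∃ n : ℕ, (S.g^[n] '' U ∩ V).Nonempty) : Nonempty (CS0 S) := by
  obtain ⟨Lc, a1, a2, a3⟩ := hasLc S hQ hK
  obtain ⟨τ, b1, b2, b3⟩ := hasTau S hQ hK
  obtain ⟨H, c1, c2, c3⟩ := hasHol S hQ hK
  obtain ⟨L⟩ := exists_lin1 (S := S) ⟨K, hK, Lc, a1, a2, a3, τ, b1, b2, b3, H, c1, c2, c3⟩
  obtain ⟨p⟩ : Nonempty X := inferInstance
  exact exists_cs0 L hK (by omega) hfu htr p

end abs

/-- Nonwandering Anosov diffeomorphisms that are uniformly quasiconformal on one bundle. -/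
theorem main_qc (E : Type*) [NormedAddCommGroup E] [NormedSpace ℝ E] [FiniteDimensional ℝ E]
    (M : Type*) [TopologicalSpace M] [T2Space M] [CompactSpace M] [ConnectedSpace M]
    [ChartedSpace E M] [IsManifold 𝓘(ℝ, E) ∞ M] (f : Diffeomorph 𝓘(ℝ, E) 𝓘(ℝ, E) M M 1)
    (hf2 : ContMDiff 𝓘(ℝ, E) 𝓘(ℝ, E) 2 f) (hf2' : ContMDiff 𝓘(ℝ, E) 𝓘(ℝ, E) 2 f.symm)
    (Es Eu : ∀ x : M, Submodule ℝ (TangentSpace 𝓘(ℝ, E) x)) (hA : IsAnosov f Es Eu)
    (N : TangentBundle 𝓘(ℝ, E) M → ℝ) (hN : IsTangentNorm N)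
    (ds du : ℕ) (h2s : 2 ≤ ds) (h2u : 2 ≤ du) (hds : ∀ x, Module.finrank ℝ (Es x) = ds)
    (hdu : ∀ x, Module.finrank ℝ (Eu x) = du)
    (hnw : ∀ U : Set M, IsOpen U → U.Nonempty → ∃ m : ℕ, 1 ≤ m ∧ (f^[m] '' U ∩ U).Nonempty)
    (hJ : UniformlyQC f N Eu ∨ UniformlyQC f N Es) :
    InfraToral f ∧ ∃ q : E → M, IsCoveringMap q ∧ Function.Surjective q := by
  obtain ⟨m, e, he, hemb, hinj⟩ := exists_embedding_euclidean_of_compact (I := 𝓘(ℝ, E)) (M := M)
  let _ : MetricSpace M := hemb.isEmbedding.comapMetricSpace e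
  have hiso : ∀ x y : M, dist x y = ‖e x - e y‖ := fun x y => dist_eq_norm (e x) (e y)
  have he1 : ContMDiff 𝓘(ℝ, E) (𝓡 m) 1 e := he.of_le (by simp)
  have he2 : ContMDiff 𝓘(ℝ, E) (𝓡 m) 2 e := he.of_le (by
    exact_mod_cast (ENat.LEInfty.out : (2 : WithTop ℕ∞) ≤ ∞))
  obtain ⟨C', a, b, Ls, Lu, hE⟩ := eanosov_of_isAnosov e he1 hinj f Es Eu hA
  obtain ⟨K, hK, hang⟩ := hE.angle he1 hinj
  have t1 : Tendsto (fun n : ℕ => K * (C' * a ^ n)) atTop (𝓝 0) := by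
    have := ((tendsto_pow_atTop_nhds_zero_of_lt_one hE.a_pos.le hE.a_lt).const_mul C').const_mul K
    simpa using this
  have t2 : Tendsto (fun n : ℕ => K * (C' * b ^ n)) atTop (𝓝 0) := by
    have := ((tendsto_pow_atTop_nhds_zero_of_lt_one hE.b_pos.le hE.b_lt).const_mul C').const_mul K
    simpa using this
  obtain ⟨n, ⟨hn1, hn2⟩, hn3⟩ := ((((tendsto_order.mp t1).2 (1 / 16) (by norm_num)).and
    ((tendsto_order.mp t2).2 (1 / 16) (by norm_num))).and (eventually_ge_atTop 1)).exists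
  obtain ⟨S, hS⟩ := exists_realizes hiso he1 hinj hE K hK hang n hn1.le hn2.le
  obtain ⟨Q, r, hQ⟩ := quad_of_realizes hiso he2 hinj hE hf2 hf2' hS
  have hfin : ∀ (x : M) (V : Submodule ℝ E),
      Module.finrank ℝ (V.map (dm E e x).toLinearMap) = Module.finrank ℝ V := fun x V =>
    (LinearEquiv.finrank_eq (Submodule.equivMapOfInjective (dm E e x).toLinearMap (hinj x) V)).symm
  have hfs : ∀ x, Module.finrank ℝ (S.Vs x) = ds := fun x => by
    rw [hS.Vs_eq, hfin]; exact hds x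
  have hfu : ∀ x, Module.finrank ℝ (S.Vu x) = du := fun x => by
    rw [hS.Vu_eq, hfin]; exact hdu x
  have hgn : ∀ x, f^[n] x = S.g x := fun x => by rw [hS.g_eq]; rfl
  have hgk : ∀ (k : ℕ) (x : M), (S.g^[k]) x = f^[n * k] x := by
    intro k x
    rw [hS.g_eq, Function.iterate_mul]
    rfl
  have htr : ∀ U V : Set M, IsOpen U → U.Nonempty → IsOpen V → V.Nonempty →
      ∃ k : ℕ, (S.g^[k] '' U ∩ V).Nonempty := by
    intro U V hU hUn hV hVn
    refine trans_of_nw S (fun O hO hOn => ?_) U V hU hUn hV hVn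
    obtain ⟨k, hk, hk'⟩ := nw_pow f f.continuous hnw n hn3 O hO hOn
    refine ⟨k, hk, ?_⟩
    have e1 : (S.g^[k]) = (f^[n * k]) := funext (hgk k)
    rwa [e1]
  rcases hJ with ⟨Ku, hKu⟩ | ⟨Ks, hKs⟩
  · obtain ⟨K1, hK1⟩ := qc_of_realizes hN he1 hinj hE (K := Ku) (fun n x v hv w hw =>
      hKu n x v hv w hw) hS
    obtain ⟨B₀⟩ := abstract_cs0 S hQ hK1 du h2u hfu htr
    refine ⟨abstract_infra (E' := E) S hQ B₀ du ds h2u h2s hfu hfs f.toHomeomorph n hn3 hgn, ?_⟩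
    obtain ⟨q, hq⟩ := abstract_cov_d (E' := E) S hQ B₀ du ds h2u h2s hfu hfs
    exact ⟨q, hq, covering_surj hq⟩
  · obtain ⟨K2, hK2⟩ := qc_of_realizes hN he1 hinj hE.symm (K := Ks)
      (qc_inverse hN hE (fun n x v hv w hw => hKs n x v hv w hw)) hS.symm
    have htr' : ∀ U V : Set M, IsOpen U → U.Nonempty → IsOpen V → V.Nonempty →
        ∃ k : ℕ, (S.symm.g^[k] '' U ∩ V).Nonempty := by
      intro U V hU hUn hV hVn
      obtain ⟨k, _, ⟨x, hx, rfl⟩, hy⟩ := htr V U hV hVn hU hUn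
      refine ⟨k, x, ⟨S.g^[k] x, hy, ?_⟩, hx⟩
      exact iter_symm_iter S k x
    obtain ⟨B₀⟩ := abstract_cs0 S.symm hQ.symm hK2 ds h2s hfs htr'
    constructor
    · refine InfraToral.inv f.toHomeomorph ?_
      refine abstract_infra (E' := E) S.symm hQ.symm B₀ ds du h2s h2u hfs hfu
        f.toHomeomorph.symm n hn3 ?_
      intro x
      apply (Function.Injective.iterate f.toHomeomorph.injective n)
      have h1 : (f.toHomeomorph)^[n] ((f.toHomeomorph.symm)^[n] x) = x :=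
        (Function.LeftInverse.iterate f.toHomeomorph.apply_symm_apply n) x
      have h3 : (f.toHomeomorph)^[n] (S.symm.g x) = S.g (S.g.symm x) := hgn _
      rw [h1, h3, Homeomorph.apply_symm_apply]
    · obtain ⟨q, hq⟩ := abstract_cov_d (E' := E) S.symm hQ.symm B₀ ds du h2s h2u hfs hfu
      exact ⟨q, hq, covering_surj hq⟩

end Pool.Agent.H576R3.CF
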