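import Pool.Agent.H576R3.CF.Base
import Pool.Agent.H779R2.Nu.NDef

set_option autoImplicit false
set_option linter.unusedSectionVars false

/-!
A transitive hyperbolic system that is uniformly quasiconformal on the unstable bundle preserves a
continuous conformal structure on this bundle.
-/

namespace Pool.Agent.H576R3.CF

open Pool.Agent.H721R2 Pool.Agent.H779R2.An Pool.Agent.H779R2.Nu Filter Topology
open scoped RealInnerProductSpace

variable {X E : Type*} [MetricSpace X] [CompactSpace X] [NormedAddCommGroup E]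
  [InnerProductSpace ℝ E] [FiniteDimensional ℝ E] {S : HypSys X E}

/-- Extension of a bilinear form on a subspace to an operator of the whole space. -/
theorem exists_ext (V : Submodule ℝ E) (B : V →ₗ[ℝ] V →ₗ[ℝ] ℝ) : ∃ M : E →L[ℝ] E,
    ∀ v w : E, ⟪M v, w⟫ = B (V.orthogonalProjectionOnto v) (V.orthogonalProjectionOnto w) := by
  let b := stdOrthonormalBasis ℝ E
  let B' : E →ₗ[ℝ] E →ₗ[ℝ] ℝ :=
    B.compl₁₂ V.orthogonalProjectionOnto.toLinearMap V.orthogonalProjectionOnto.toLinearMap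
  let M : E →ₗ[ℝ] E := ∑ i, (B'.flip (b i)).smulRight (b i)
  have hM : ∀ v, M v = ∑ i, B' v (b i) • b i := by
    intro v
    simp only [M, LinearMap.sum_apply, LinearMap.smulRight_apply, LinearMap.flip_apply]
  refine ⟨LinearMap.toContinuousLinearMap M, fun v w => ?_⟩
  show ⟪M v, w⟫ = B' v w
  rw [hM, sum_inner]
  have e : w = ∑ i, ⟪b i, w⟫ • b i := (b.sum_repr' w).symm
  conv_rhs => rw [e, map_sum]
  refine Finset.sum_congr rfl fun i _ => ?_
  rw [real_inner_smul_left, map_smul, smul_eq_mul, mul_comm]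

/-- Pull back of a form (given by an operator). -/
noncomputable def frm (M R : E →L[ℝ] E) : E →L[ℝ] E :=
  (ContinuousLinearMap.adjoint R).comp (M.comp R)

theorem frm_apply (M R : E →L[ℝ] E) (v w : E) : ⟪frm M R v, w⟫ = ⟪M (R v), R w⟫ := by
  show ⟪ContinuousLinearMap.adjoint R (M (R v)), w⟫ = _
  rw [ContinuousLinearMap.adjoint_inner_left]

theorem frm_tendsto (M : E →L[ℝ] E) {R : ℕ → E →L[ℝ] E} {T : E →L[ℝ] E}
    (h : Tendsto R atTop (𝓝 T)) :
    Tendsto (fun j => frm M (R j)) atTop (𝓝 (frm M T)) := by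
  have hc : Continuous fun R : E →L[ℝ] E => frm M R :=
    ((ContinuousLinearMap.adjoint (𝕜 := ℝ) (E := E) (F := E)).continuous).clm_comp
      (continuous_const.clm_comp continuous_id)
  exact (hc.tendsto T).comp h

theorem norm_smul_eq_of_smul {V : Type*} [NormedAddCommGroup V] [NormedSpace ℝ V] {a : ℝ}
    (ha : 0 < a) (u v : V) (h : u = a • v) : ‖u‖⁻¹ • u = ‖v‖⁻¹ • v := by
  rw [h, norm_smul, Real.norm_of_nonneg ha.le, smul_smul, mul_inv]
  congr 1
  field_simp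

/-- The invariant continuous conformal structure. -/
theorem exists_field (L : Lin1 S) {K : ℝ} (hK : QC S K) {D : ℕ} (hD : 1 ≤ D)
    (hfu : ∀ x, Module.finrank ℝ (S.Vu x) = D)
    (htr : ∀ U V : Set X, IsOpen U → U.Nonempty → IsOpen V → V.Nonempty →
      ∃ n : ℕ, (S.g^[n] '' U ∩ V).Nonempty) (p : X) :
    ∃ F : X → E →L[ℝ] E, Continuous F ∧ (∀ x, ‖F x‖ = 1) ∧
      (∀ x v w, ⟪F x v, w⟫ = ⟪F x w, v⟫) ∧
      (∀ x, ∀ v ∈ S.Vu x, v ≠ 0 → 0 < ⟪F x v, v⟫) ∧
      ∀ x, ∃ a > 0, ∀ v ∈ S.Vu x, ∀ w ∈ S.Vu x,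
        ⟪F (S.g x) (S.D x v), S.D x w⟫ = a * ⟪F x v, w⟫ := by
  have hne : ∀ n x, An S n x ≠ 0 := fun n x => An_ne hD hfu n x
  have hex : ∀ x y, ∃ T, Lim S x y T := fun x y => Lim.exists_of_trans hne htr x y
  obtain ⟨B, B1, B2, B3⟩ := exists_base_form L hK hD hfu p
  obtain ⟨M, hM⟩ := exists_ext (S.Vu p) B
  have hGm : ∀ v w : S.Vu p, ⟪M v, w⟫ = B v w := fun v w => by
    rw [hM, Submodule.orthogonalProjectionOnto_mem_subspace_eq_self,
      Submodule.orthogonalProjectionOnto_mem_subspace_eq_self]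
  have hsym : ∀ v w, ⟪M v, w⟫ = ⟪M w, v⟫ := fun v w => by
    rw [hM, hM, B1]
  have hpos : ∀ {x} {R : E →L[ℝ] E}, Lim S x p R → ∀ v ∈ S.Vu x, v ≠ 0 →
      0 < ⟪frm M R v, v⟫ := by
    intro x R hR v hv hv0
    rw [frm_apply]
    have h1 : (⟨R v, hR.mem v⟩ : S.Vu p) ≠ 0 := by
      intro h0
      exact hv0 (hR.inj hK hv (congrArg Subtype.val h0))
    have h2 := B2 _ h1
    rw [← hGm] at h2
    exact h2
  have hnz : ∀ {x} {R : E →L[ℝ] E}, Lim S x p R → frm M R ≠ 0 := by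
    intro x R hR h0
    have hp : 0 < Module.finrank ℝ (S.Vu x) := by rw [hfu]; omega
    have : Nontrivial (S.Vu x) := Module.finrank_pos_iff.mp hp
    obtain ⟨v, hv⟩ := exists_ne (0 : S.Vu x)
    have h1 := hpos hR v v.2 (fun h => hv (Subtype.ext h))
    rw [h0, zero_apply, inner_zero_left] at h1
    exact lt_irrefl _ h1
  have huniq : ∀ {x} {R R' : E →L[ℝ] E}, Lim S x p R → Lim S x p R' →
      ∃ a > (0 : ℝ), frm M R' = a • frm M R := by
    intro x R R' hR hR'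
    obtain ⟨Q, hQ⟩ := hex p x
    obtain ⟨α, hα, h1⟩ := B3 _ (Lim.comp L hK hQ hR)
    obtain ⟨β, hβ, h2⟩ := B3 _ (Lim.comp L hK hQ hR')
    have hsurj : ∀ v : E, ∃ u : S.Vu p, Q u = pu S x v := by
      intro v
      let A : S.Vu p →ₗ[ℝ] S.Vu x := LinearMap.restrict (Q : E →ₗ[ℝ] E) (fun v _ => hQ.mem v)
      have hinj : Function.Injective A := by
        rw [← LinearMap.ker_eq_bot, LinearMap.ker_eq_bot']
        intro u hu
        have h4 : Q u = 0 := congrArg Subtype.val hu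
        exact Subtype.ext (hQ.inj hK u.2 h4)
      have hs : Function.Surjective A :=
        (LinearMap.injective_iff_surjective_of_finrank_eq_finrank (by rw [hfu, hfu])).mp hinj
      obtain ⟨u, hu⟩ := hs ⟨pu S x v, pu_mem S x v⟩
      exact ⟨u, congrArg Subtype.val hu⟩
    have key : ∀ {T : E →L[ℝ] E}, Lim S x p T → ∀ {γ : ℝ},
        (∀ v w v' w' : S.Vu p, (v' : E) = (T.comp Q) v → (w' : E) = (T.comp Q) w →
          B v' w' = γ * B v w) → ∀ (v w : E) (u u' : S.Vu p), Q u = pu S x v →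
          Q u' = pu S x w → ⟪frm M T v, w⟫ = γ * B u u' := by
      intro T hT γ hγ v w u u' hQu hQu'
      rw [frm_apply, ← hT.comp_pu v, ← hT.comp_pu w, ← hQu, ← hQu']
      have := hγ u u' ⟨T (Q u), hT.mem _⟩ ⟨T (Q u'), hT.mem _⟩ rfl rfl
      rw [← hGm] at this
      exact this
    refine ⟨β / α, div_pos hβ hα, ?_⟩
    refine ContinuousLinearMap.ext fun v => ext_inner_right ℝ fun w => ?_
    obtain ⟨u, hu⟩ := hsurj v
    obtain ⟨u', hu'⟩ := hsurj w
    rw [smul_apply, real_inner_smul_left, key hR' h2 v w u u' hu hu',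
      key hR h1 v w u u' hu hu']
    field_simp
  choose R hR using fun x => hex x p
  let F : X → E →L[ℝ] E := fun x => ‖frm M (R x)‖⁻¹ • frm M (R x)
  have hF : ∀ {x} {T : E →L[ℝ] E}, Lim S x p T → F x = ‖frm M T‖⁻¹ • frm M T := by
    intro x T hT
    obtain ⟨a, ha, h⟩ := huniq hT (hR x)
    exact norm_smul_eq_of_smul ha _ _ h
  refine ⟨F, ?_, ?_, ?_, ?_, ?_⟩
  · rw [continuous_iff_seqContinuous]
    intro xs x hxs
    refine tendsto_of_subseq_tendsto fun ns hns => ?_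
    let A : ℕ → E →L[ℝ] E := fun j => ‖R (xs (ns j))‖⁻¹ • R (xs (ns j))
    have hA : ∀ j, A j ∈ Metric.sphere (0 : E →L[ℝ] E) 1 := by
      intro j
      rw [mem_sphere_zero_iff_norm, norm_smul, norm_inv, norm_norm,
        inv_mul_cancel₀ (norm_ne_zero_iff.mpr (hR _).ne)]
    have hAL : ∀ j, Lim S (xs (ns j)) p (A j) := fun j =>
      (hR _).smul (inv_pos.mpr (norm_pos_iff.mpr (hR _).ne))
    have : ProperSpace (E →L[ℝ] E) := FiniteDimensional.proper_real _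
    obtain ⟨T, hT, φ, hφ, hlim⟩ := (isCompact_sphere (0 : E →L[ℝ] E) 1).tendsto_subseq hA
    have hT0 : T ≠ 0 := by
      intro h
      rw [h, mem_sphere_zero_iff_norm, norm_zero] at hT
      exact zero_ne_one hT
    have hTL : Lim S x p T := Lim.closed hT0 (fun j => xs (ns (φ j))) (fun _ => p) (A ∘ φ)
      (fun j => hAL _) ((hxs.comp hns).comp hφ.tendsto_atTop) tendsto_const_nhds hlim
    refine ⟨φ, ?_⟩
    show Tendsto (fun j => F (xs (ns (φ j)))) atTop (𝓝 (F x))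
    rw [hF hTL]
    have h1 := frm_tendsto M hlim
    have h2 := (h1.norm.inv₀ (norm_ne_zero_iff.mpr (hnz hTL))).smul h1
    exact h2.congr fun j => (hF (hAL (φ j))).symm
  · intro x
    show ‖‖frm M (R x)‖⁻¹ • frm M (R x)‖ = 1
    rw [norm_smul, norm_inv, norm_norm, inv_mul_cancel₀ (norm_ne_zero_iff.mpr (hnz (hR x)))]
  · intro x v w
    show ⟪‖frm M (R x)‖⁻¹ • frm M (R x) v, w⟫ = ⟪‖frm M (R x)‖⁻¹ • frm M (R x) w, v⟫
    rw [real_inner_smul_left, real_inner_smul_left, frm_apply, frm_apply, hsym]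
  · intro x v hv hv0
    have h1 := hpos (hR x) v hv hv0
    show 0 < ⟪‖frm M (R x)‖⁻¹ • frm M (R x) v, v⟫
    rw [real_inner_smul_left]
    exact mul_pos (inv_pos.mpr (norm_pos_iff.mpr (hnz (hR x)))) h1
  · intro x
    have h1 : Lim S x (S.g x) (An S 1 x) := Lim.one x (hne 1 x)
    have h2 : Lim S x p ((R (S.g x)).comp (An S 1 x)) := Lim.comp L hK h1 (hR (S.g x))
    have n1 := norm_pos_iff.mpr (hnz (hR (S.g x)))
    have n2 := norm_pos_iff.mpr (hnz h2)
    refine ⟨‖frm M (R (S.g x))‖⁻¹ * ‖frm M ((R (S.g x)).comp (An S 1 x))‖,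
      mul_pos (inv_pos.mpr n1) n2, fun v hv w hw => ?_⟩
    have e1 : ∀ u ∈ S.Vu x, (R (S.g x)) (S.D x u) = ((R (S.g x)).comp (An S 1 x)) u := by
      intro u hu
      show _ = (R (S.g x)) (An S 1 x u)
      rw [An_of_mem S 1 hu]
      rfl
    have e2 : ⟪F (S.g x) (S.D x v), S.D x w⟫ =
        ‖frm M (R (S.g x))‖⁻¹ * ⟪frm M (R (S.g x)) (S.D x v), S.D x w⟫ :=
      real_inner_smul_left _ _ _
    have e3 : ⟪F x v, w⟫ = ‖frm M ((R (S.g x)).comp (An S 1 x))‖⁻¹ *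
        ⟪frm M ((R (S.g x)).comp (An S 1 x)) v, w⟫ := by
      rw [hF h2]
      exact real_inner_smul_left _ _ _
    rw [e2, e3, frm_apply, frm_apply, e1 v hv, e1 w hw]
    field_simp

/-- Transitive and uniformly quasiconformal implies conformal. -/
theorem exists_cs0 (L : Lin1 S) {K : ℝ} (hK : QC S K) {D : ℕ} (hD : 1 ≤ D)
    (hfu : ∀ x, Module.finrank ℝ (S.Vu x) = D)
    (htr : ∀ U V : Set X, IsOpen U → U.Nonempty → IsOpen V → V.Nonempty →
      ∃ n : ℕ, (S.g^[n] '' U ∩ V).Nonempty) (p : X) : Nonempty (CS0 S) := by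
  obtain ⟨F, hF, hn, hs, hp, hg⟩ := exists_field L hK hD hfu htr p
  choose a ha hga using hg
  refine ⟨⟨fun x => LinearMap.mk₂ ℝ (fun v w => ⟪F x v, w⟫) (fun v v' w => by
    rw [map_add, inner_add_left]) (fun c v w => by
      rw [map_smul, real_inner_smul_left]; rfl)
    (fun v w w' => inner_add_right _ _ _) (fun c v w => by rw [real_inner_smul_right]; rfl), a,
    fun x v _ w _ => hs x v w,
    fun x v hv h0 => hp x v hv h0, ha, fun x v hv w hw => hga x v hv w hw, fun η hη => ?_⟩⟩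
  obtain ⟨r, hr, h⟩ := Metric.uniformContinuous_iff.mp
    (CompactSpace.uniformContinuous_of_continuous hF) (η / 2) (by positivity)
  refine ⟨min r (min 1 (η / 6)), lt_min hr (lt_min one_pos (by positivity)),
    fun x y hxy v hv w hw hvw => ?_⟩
  show |⟪F x v, v⟫ - ⟪F y w, w⟫| ≤ η * ‖v‖ ^ 2
  have h1 : ‖F x - F y‖ ≤ η / 2 := by
    have := h (lt_of_lt_of_le hxy (min_le_left _ _))
    rw [dist_eq_norm] at this
    exact this.le
  have h2 : ‖v - w‖ ≤ ‖v‖ := hvw.trans (by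
    have : min r (min 1 (η / 6)) ≤ 1 := (min_le_right _ _).trans (min_le_left _ _)
    nlinarith [norm_nonneg v])
  have h3 : ‖v - w‖ ≤ η / 6 * ‖v‖ := hvw.trans
    (mul_le_mul_of_nonneg_right ((min_le_right _ _).trans (min_le_right _ _)) (norm_nonneg _))
  have h4 : ‖w‖ ≤ 2 * ‖v‖ := by
    have := norm_sub_norm_le w v
    rw [norm_sub_rev] at this
    linarith
  have e : ⟪F x v, v⟫ - ⟪F y w, w⟫ =
      ⟪(F x - F y) v, v⟫ + ⟪F y (v - w), v⟫ + ⟪F y w, v - w⟫ := by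
    rw [sub_apply, inner_sub_left, map_sub, inner_sub_left, inner_sub_right]
    ring
  rw [e]
  have k0 : ∀ (A : E →L[ℝ] E) (u u' : E), |⟪A u, u'⟫| ≤ ‖A‖ * ‖u‖ * ‖u'‖ := fun A u u' =>
    (abs_real_inner_le_norm _ _).trans
      (mul_le_mul_of_nonneg_right (ContinuousLinearMap.le_opNorm _ _) (norm_nonneg _))
  have k1 := k0 (F x - F y) v v
  have k2 := k0 (F y) (v - w) v
  have k3 := k0 (F y) w (v - w)
  rw [hn, one_mul] at k2 k3
  have k1' : ‖F x - F y‖ * ‖v‖ * ‖v‖ ≤ η / 2 * ‖v‖ * ‖v‖ := by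
    rw [mul_assoc, mul_assoc]
    exact mul_le_mul_of_nonneg_right h1 (by positivity)
  have k4 := abs_add_three ⟪(F x - F y) v, v⟫ ⟪F y (v - w), v⟫ ⟪F y w, v - w⟫
  have k5 : ‖v - w‖ * ‖v‖ ≤ η / 6 * ‖v‖ * ‖v‖ := mul_le_mul_of_nonneg_right h3 (norm_nonneg _)
  have k6 : ‖w‖ * ‖v - w‖ ≤ 2 * ‖v‖ * (η / 6 * ‖v‖) :=
    mul_le_mul h4 h3 (norm_nonneg _) (by positivity)
  nlinarith

end Pool.Agent.H576R3.CF
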